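import Mathlib

/-!
# The number of representations by `x^2 - v z^2` in a box (`MP_76dfaf_nt`)
-/

set_option autoImplicit false

open Finset

namespace Pool.Agent.H32.B4

/-- two primitive solutions in the same class -/
theorem class_dvd (v n x z x' z' x0 z0 : ℤ) (hv : Squarefree v) (hn : n ≠ 0)
    (h : x ^ 2 - v * z ^ 2 = n) (h' : x' ^ 2 - v * z' ^ 2 = n) (h0 : x0 ^ 2 - v * z0 ^ 2 = n)
    (hc : IsCoprime x z) (hc' : IsCoprime x' z') (hc0 : IsCoprime x0 z0)
    (hm : Int.gcd n (x * z0 - x0 * z) = Int.gcd n (x' * z0 - x0 * z')) :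
    n ∣ 2 * (x * z' - x' * z) := by
  have cop : ∀ y w : ℤ, y ^ 2 - v * w ^ 2 = n → IsCoprime y w → IsCoprime w n := by
    intro y w hyw hyc
    rw [← hyw]
    have h1 : IsCoprime w (y ^ 2) := hyc.symm.pow_right
    have h2 : y ^ 2 - v * w ^ 2 = y ^ 2 + w * (-(v * w)) := by ring
    rw [h2]
    exact IsCoprime.add_mul_left_right h1 _
  have cz := cop x z h hc
  have cz' := cop x' z' h' hc'
  have cz0 := cop x0 z0 h0 hc0
  set m : ℤ := (Int.gcd n (x * z0 - x0 * z) : ℤ) with hmdef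
  have hmn : m ∣ n := Int.gcd_dvd_left _ _
  have hm0 : m ≠ 0 := fun h0' => hn (by rw [h0'] at hmn; exact zero_dvd_iff.mp hmn)
  obtain ⟨m2, hm2⟩ := hmn
  -- the second factor
  have second : ∀ y w : ℤ, y ^ 2 - v * w ^ 2 = n → m = (Int.gcd n (y * z0 - x0 * w) : ℤ) →
      m ∣ y * z0 - x0 * w ∧ m2 ∣ y * z0 + x0 * w := by
    intro y w hyw hmy
    have h1 : m ∣ y * z0 - x0 * w := by
      rw [hmy]
      exact Int.gcd_dvd_right _ _
    refine ⟨h1, ?_⟩
    obtain ⟨k, hk⟩ := h1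
    have h2 : IsCoprime m2 k := by
      rw [Int.isCoprime_iff_gcd_eq_one]
      have h3 : Int.gcd (m * m2) (m * k) = m.natAbs * Int.gcd m2 k := Int.gcd_mul_left _ _ _
      rw [← hm2, ← hk] at h3
      have h4 : m.natAbs = Int.gcd n (y * z0 - x0 * w) := by
        rw [hmy]
        exact Int.natAbs_natCast _
      rw [← h4] at h3
      have h5 : 0 < m.natAbs := Int.natAbs_pos.mpr hm0
      exact (Nat.eq_of_mul_eq_mul_left h5 (by rw [mul_one]; exact h3)).symm
    have h3 : m * m2 ∣ m * (k * (y * z0 + x0 * w)) := by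
      rw [← hm2]
      refine ⟨z0 ^ 2 - w ^ 2, ?_⟩
      rw [← mul_assoc, ← hk]
      linear_combination z0 ^ 2 * hyw - w ^ 2 * h0
    have h4 : m2 ∣ k * (y * z0 + x0 * w) := (mul_dvd_mul_iff_left hm0).mp h3
    exact h2.dvd_of_dvd_mul_left h4
  obtain ⟨a1, a2⟩ := second x z h rfl
  obtain ⟨b1, b2⟩ := second x' z' h' (by rw [hmdef, hm])
  have d1 : m ∣ x * z' - x' * z := by
    have e1 : m ∣ z0 * (x * z' - x' * z) := by
      have e2 : z0 * (x * z' - x' * z) = z' * (x * z0 - x0 * z) - z * (x' * z0 - x0 * z') := by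
        ring
      rw [e2]
      exact dvd_sub (Dvd.dvd.mul_left a1 _) (Dvd.dvd.mul_left b1 _)
    have e3 : IsCoprime m z0 := (cz0.of_isCoprime_of_dvd_right ⟨m2, hm2⟩).symm
    exact e3.dvd_of_dvd_mul_left e1
  have d2 : m2 ∣ x * z' - x' * z := by
    have e1 : m2 ∣ z0 * (x * z' - x' * z) := by
      have e2 : z0 * (x * z' - x' * z) = z' * (x * z0 + x0 * z) - z * (x' * z0 + x0 * z') := by
        ring
      rw [e2]
      exact dvd_sub (Dvd.dvd.mul_left a2 _) (Dvd.dvd.mul_left b2 _)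
    have e3 : IsCoprime m2 z0 :=
      (cz0.of_isCoprime_of_dvd_right ⟨m, by rw [hm2, mul_comm]⟩).symm
    exact e3.dvd_of_dvd_mul_left e1
  -- the common divisor
  set g : ℤ := (Int.gcd m m2 : ℤ) with hg
  have g1 : g ∣ m := Int.gcd_dvd_left _ _
  have g2 : g ∣ m2 := Int.gcd_dvd_right _ _
  have gn : g ∣ n := by rw [hm2]; exact Dvd.dvd.mul_right g1 _
  have g3 : g ∣ 2 * x0 := by
    have e1 : g ∣ z * (2 * x0) := by
      have e2 : z * (2 * x0) = (x * z0 + x0 * z) - (x * z0 - x0 * z) := by ring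
      rw [e2]
      exact dvd_sub (g2.trans a2) (g1.trans a1)
    exact ((cz.of_isCoprime_of_dvd_right gn).symm).dvd_of_dvd_mul_left e1
  have g4 : IsCoprime g x0 := by
    rw [Int.isCoprime_iff_gcd_eq_one]
    by_contra hne
    obtain ⟨p, hp, hpd⟩ := Nat.exists_prime_and_dvd hne
    have hpg : (p : ℤ) ∣ g := (Int.natCast_dvd_natCast.mpr hpd).trans (Int.gcd_dvd_left _ _)
    have hpx : (p : ℤ) ∣ x0 := (Int.natCast_dvd_natCast.mpr hpd).trans (Int.gcd_dvd_right _ _)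
    have e1 : (p : ℤ) * p ∣ n := by
      rw [hm2]
      exact mul_dvd_mul (hpg.trans g1) (hpg.trans g2)
    have e2 : (p : ℤ) * p ∣ v * z0 ^ 2 := by
      have e3 : v * z0 ^ 2 = x0 * x0 - n := by linear_combination -h0
      rw [e3]
      exact dvd_sub (mul_dvd_mul hpx hpx) e1
    have e4 : IsCoprime ((p : ℤ) * p) (z0 ^ 2) := by
      have e5 : IsCoprime (p : ℤ) z0 := hc0.of_isCoprime_of_dvd_left hpx
      exact (e5.mul_left e5).pow_right
    have e6 : (p : ℤ) * p ∣ v := e4.dvd_of_dvd_mul_right e2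
    have e7 := hv _ e6
    exact hp.one_lt.ne' (Int.natAbs_natCast p ▸ Int.isUnit_iff_natAbs_eq.mp e7)
  have g5 : g ∣ 2 := g4.dvd_of_dvd_mul_right g3
  obtain ⟨i, j, hij⟩ : ∃ i j : ℤ, g = m * i + m2 * j :=
    ⟨Int.gcdA m m2, Int.gcdB m m2, Int.gcd_eq_gcd_ab m m2⟩
  have f1 : n ∣ g * (x * z' - x' * z) := by
    rw [hij, hm2]
    obtain ⟨r, hr⟩ := d1
    obtain ⟨r2, hr2⟩ := d2
    refine ⟨i * r2 + j * r, ?_⟩
    calc (m * i + m2 * j) * (x * z' - x' * z) =
        m * i * (x * z' - x' * z) + m2 * j * (x * z' - x' * z) := by ring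
      _ = m * i * (m2 * r2) + m2 * j * (m * r) := by rw [← hr2, ← hr]
      _ = _ := by ring
  exact f1.trans (mul_dvd_mul_right g5 _)

/-- different solutions of the same class are far apart, `v ≥ 1` -/
theorem growth (v n x z x' z' : ℤ) (hv : 1 ≤ v) (hn : n ≠ 0) (hx : 1 ≤ x) (hz : 1 ≤ z)
    (hx' : 1 ≤ x') (hz' : 1 ≤ z') (h : x ^ 2 - v * z ^ 2 = n) (h' : x' ^ 2 - v * z' ^ 2 = n)
    (hd : n ∣ 2 * (x * z' - x' * z)) :
    x * z' = x' * z ∨ 2 * (x + z) ≤ x' + z' ∨ 2 * (x' + z') ≤ x + z := by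
  obtain ⟨b, hb⟩ := hd
  have hid : (x * x' - v * z * z') ^ 2 - v * (x * z' - x' * z) ^ 2 = n ^ 2 := by
    calc _ = (x ^ 2 - v * z ^ 2) * (x' ^ 2 - v * z' ^ 2) := by ring
      _ = n ^ 2 := by rw [h, h']; ring
  have h4 : (2 * (x * x' - v * z * z')) ^ 2 = n ^ 2 * (4 + v * b ^ 2) := by
    have : (2 * (x * z' - x' * z)) ^ 2 = n ^ 2 * b ^ 2 := by rw [hb]; ring
    linear_combination 4 * hid + v * this
  have hdvd : n ∣ 2 * (x * x' - v * z * z') := by
    rw [← Int.pow_dvd_pow_iff two_ne_zero]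
    exact ⟨_, h4⟩
  obtain ⟨a, ha⟩ := hdvd
  have hn2 : n ^ 2 ≠ 0 := pow_ne_zero 2 hn
  have hab : a ^ 2 = 4 + v * b ^ 2 := by
    rw [ha, mul_pow] at h4
    exact mul_left_cancel₀ hn2 h4
  have hsign : 0 < n * (x * x' - v * z * z') := by
    have p1 : 0 < x * x' := by positivity
    have p2 : 0 < v * z * z' := by positivity
    rcases lt_or_gt_of_ne hn with hneg | hpos
    · refine mul_pos_of_neg_of_neg hneg ?_
      by_contra hcon
      rw [not_lt] at hcon
      have e1 : (v * z * z') ^ 2 ≤ (x * x') ^ 2 := pow_le_pow_left₀ p2.le (by linarith) 2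
      have e2 : (v * z * z') ^ 2 = (x ^ 2 - n) * (x' ^ 2 - n) := by
        have a1 : v * z ^ 2 = x ^ 2 - n := by linarith
        have a2 : v * z' ^ 2 = x' ^ 2 - n := by linarith
        rw [← a1, ← a2]
        ring
      nlinarith [sq_nonneg x, sq_nonneg x', mul_pos (neg_pos.mpr hneg) (neg_pos.mpr hneg),
        mul_nonneg (neg_pos.mpr hneg).le (sq_nonneg x), mul_nonneg (neg_pos.mpr hneg).le
        (sq_nonneg x')]
    · refine mul_pos hpos ?_
      by_contra hcon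
      rw [not_lt] at hcon
      have e1 : (x * x') ^ 2 ≤ (v * z * z') ^ 2 := pow_le_pow_left₀ p1.le (by linarith) 2
      have e2 : (x * x') ^ 2 = (n + v * z ^ 2) * (n + v * z' ^ 2) := by
        have a1 : n + v * z ^ 2 = x ^ 2 := by linarith
        have a2 : n + v * z' ^ 2 = x' ^ 2 := by linarith
        rw [a1, a2]
        ring
      have e3 : 0 < n * (v * z ^ 2 + v * z' ^ 2) := by positivity
      nlinarith [mul_pos hpos hpos]
  have ha0 : 0 < a := by
    have e1 : 0 < n ^ 2 * a := by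
      have e2 : n ^ 2 * a = 2 * (n * (x * x' - v * z * z')) := by
        linear_combination -n * ha
      rw [e2]
      linarith
    exact (mul_pos_iff_of_pos_left (by positivity)).mp e1
  by_cases hb0 : b = 0
  · left
    rw [hb0, mul_zero] at hb
    linarith
  · right
    have hb2 : 1 ≤ b ^ 2 := by
      have := Int.one_le_abs hb0
      nlinarith [sq_abs b]
    have ha3 : 3 ≤ a := by nlinarith
    have k1 : 2 * x' = a * x + v * b * z := by
      apply mul_left_cancel₀ hn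
      have : n * x' = x * (x * x' - v * z * z') + v * z * (x * z' - x' * z) := by
        rw [← h]; ring
      linear_combination 2 * this + x * ha + v * z * hb
    have k2 : 2 * z' = b * x + a * z := by
      apply mul_left_cancel₀ hn
      have : n * z' = x * (x * z' - x' * z) + z * (x * x' - v * z * z') := by
        rw [← h]; ring
      linear_combination 2 * this + x * hb + z * ha
    have k3 : 2 * x = a * x' - v * b * z' := by
      apply mul_left_cancel₀ hn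
      have : n * x = x' * (x * x' - v * z * z') - v * z' * (x * z' - x' * z) := by
        rw [← h']; ring
      linear_combination 2 * this + x' * ha - v * z' * hb
    have k4 : 2 * z = -b * x' + a * z' := by
      apply mul_left_cancel₀ hn
      have : n * z = -x' * (x * z' - x' * z) + z' * (x * x' - v * z * z') := by
        rw [← h']; ring
      linear_combination 2 * this - x' * hb + z' * ha
    rcases lt_or_gt_of_ne hb0 with hneg | hpos
    · right
      have q1 : 1 ≤ -b := by omega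
      have q2 : z' ≤ v * (-b) * z' := by
        have : 1 ≤ v * (-b) := by nlinarith
        nlinarith
      nlinarith
    · left
      have q1 : 1 ≤ b := by omega
      have q2 : z ≤ v * b * z := by
        have : 1 ≤ v * b := by nlinarith
        nlinarith
      nlinarith

/-- the same for sums of two squares -/
theorem growth_neg (n x z x' z' : ℤ) (hx : 1 ≤ x) (hz : 1 ≤ z)
    (hx' : 1 ≤ x') (hz' : 1 ≤ z') (h : x ^ 2 + z ^ 2 = n) (h' : x' ^ 2 + z' ^ 2 = n)
    (hd : n ∣ 2 * (x * z' - x' * z)) : x * z' = x' * z := by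
  obtain ⟨b, hb⟩ := hd
  have hn : 0 < n := by nlinarith
  have hid : (x * x' + z * z') ^ 2 + (x * z' - x' * z) ^ 2 = n ^ 2 := by
    calc _ = (x ^ 2 + z ^ 2) * (x' ^ 2 + z' ^ 2) := by ring
      _ = n ^ 2 := by rw [h, h']; ring
  have h4 : (2 * (x * x' + z * z')) ^ 2 = n ^ 2 * (4 - b ^ 2) := by
    have : (2 * (x * z' - x' * z)) ^ 2 = n ^ 2 * b ^ 2 := by rw [hb]; ring
    linear_combination 4 * hid - this
  have hdvd : n ∣ 2 * (x * x' + z * z') := by
    rw [← Int.pow_dvd_pow_iff two_ne_zero]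
    exact ⟨_, h4⟩
  obtain ⟨a, ha⟩ := hdvd
  have hn2 : n ^ 2 ≠ 0 := by positivity
  have hab : a ^ 2 = 4 - b ^ 2 := by
    rw [ha, mul_pow] at h4
    exact mul_left_cancel₀ hn2 h4
  have ha0 : 0 < a := by
    have e1 : 0 < n * a := by
      rw [← ha]
      positivity
    exact (mul_pos_iff_of_pos_left hn).mp e1
  have hb0 : b = 0 := by
    by_contra hb0
    have hb2 : 1 ≤ b ^ 2 := by
      have := Int.one_le_abs hb0
      nlinarith [sq_abs b]
    have ha1 : a = 1 := by nlinarith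
    rw [ha1] at hab
    have hb3 : b ^ 2 = 3 := by linarith
    have hb4 : b < 2 := by nlinarith
    have hb5 : -2 < b := by nlinarith
    interval_cases b <;> omega
  rw [hb0, mul_zero] at hb
  linarith

/-- the number of solutions in a box -/
theorem count_gen (v n : ℤ) (hv : Squarefree v) (hn : n ≠ 0) (B : ℕ) (A : Finset (ℕ × ℕ))
    (hA : ∀ a ∈ A, 1 ≤ a.1 ∧ 1 ≤ a.2 ∧ a.1 ≤ B ∧ a.2 ≤ B ∧
      (a.1 : ℤ) ^ 2 - v * (a.2 : ℤ) ^ 2 = n)
    (hcore : ∀ n' x z x' z' : ℤ, n' ≠ 0 → 1 ≤ x → 1 ≤ z → 1 ≤ x' → 1 ≤ z' →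
      x ^ 2 - v * z ^ 2 = n' → x' ^ 2 - v * z' ^ 2 = n' → n' ∣ 2 * (x * z' - x' * z) →
      x * z' = x' * z ∨ 2 * (x + z) ≤ x' + z' ∨ 2 * (x' + z') ≤ x + z) :
    A.card ≤ n.natAbs.divisors.card ^ 2 * (Nat.log 2 (2 * B) + 1) := by
  classical
  set Pr : ℕ → ℕ × ℕ → Prop := fun g b => Nat.Coprime b.1 b.2 ∧ 1 ≤ b.1 ∧ 1 ≤ b.2 ∧
    (b.1 : ℤ) ^ 2 - v * (b.2 : ℤ) ^ 2 = n / (g : ℤ) ^ 2 with hPr
  have hbase : ∀ g : ℕ, ∃ b : ℕ × ℕ, (∃ c, Pr g c) → Pr g b := by
    intro g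
    by_cases h : ∃ c, Pr g c
    · obtain ⟨c, hc⟩ := h
      exact ⟨c, fun _ => hc⟩
    · exact ⟨(1, 1), fun h' => absurd h' h⟩
  choose base hbase using hbase
  -- the primitive solution of `a`
  have hprim : ∀ a ∈ A, ∃ x z : ℕ, a.1 = Nat.gcd a.1 a.2 * x ∧ a.2 = Nat.gcd a.1 a.2 * z ∧
      Pr (Nat.gcd a.1 a.2) (x, z) ∧ ((Nat.gcd a.1 a.2 : ℕ) : ℤ) ^ 2 ∣ n ∧
      1 ≤ Nat.gcd a.1 a.2 := by
    intro a ha
    obtain ⟨h1, h2, h3, h4, h5⟩ := hA a ha
    have hg : 0 < Nat.gcd a.1 a.2 := Nat.gcd_pos_of_pos_left _ h1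
    obtain ⟨x, z, hcop, hx, hz⟩ := Nat.exists_coprime a.1 a.2
    set g := Nat.gcd a.1 a.2 with hgdef
    have hg0 : ((g : ℕ) : ℤ) ^ 2 ≠ 0 := by positivity
    have hn' : n = ((g : ℕ) : ℤ) ^ 2 * ((x : ℤ) ^ 2 - v * (z : ℤ) ^ 2) := by
      rw [← h5, hx, hz]
      push_cast
      ring
    refine ⟨x, z, by rw [mul_comm]; exact hx, by rw [mul_comm]; exact hz, ⟨hcop, ?_, ?_, ?_⟩,
      ⟨_, hn'⟩, hg⟩
    · rcases Nat.eq_zero_or_pos x with h | h
      · rw [h, zero_mul] at hx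
        omega
      · exact h
    · rcases Nat.eq_zero_or_pos z with h | h
      · rw [h, zero_mul] at hz
        omega
      · exact h
    · rw [hn', Int.mul_ediv_cancel_left _ hg0]
  have hprim' : ∀ a : ℕ × ℕ, ∃ b : ℕ × ℕ, a ∈ A → a.1 = Nat.gcd a.1 a.2 * b.1 ∧
      a.2 = Nat.gcd a.1 a.2 * b.2 ∧ Pr (Nat.gcd a.1 a.2) b ∧
      ((Nat.gcd a.1 a.2 : ℕ) : ℤ) ^ 2 ∣ n ∧ 1 ≤ Nat.gcd a.1 a.2 := by
    intro a
    by_cases ha : a ∈ A
    · obtain ⟨x, z, h⟩ := hprim a ha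
      exact ⟨(x, z), fun _ => h⟩
    · exact ⟨(1, 1), fun h => absurd h ha⟩
  choose pr hpr using hprim'
  have hnn : n.natAbs ≠ 0 := Int.natAbs_ne_zero.mpr hn
  have hcard : A.card ≤ (n.natAbs.divisors ×ˢ n.natAbs.divisors ×ˢ
      range (Nat.log 2 (2 * B) + 1)).card := by
    refine Finset.card_le_card_of_injOn (fun a => (Nat.gcd a.1 a.2,
      Int.gcd (n / ((Nat.gcd a.1 a.2 : ℕ) : ℤ) ^ 2) (((pr a).1 : ℤ) *
        (base (Nat.gcd a.1 a.2)).2 - (base (Nat.gcd a.1 a.2)).1 * (pr a).2),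
      Nat.log 2 ((pr a).1 + (pr a).2))) ?_ ?_
    · intro a ha
      have ha' : a ∈ A := ha
      obtain ⟨e1, e2, _, e4, e5⟩ := hpr a ha'
      obtain ⟨_, _, h3, h4, _⟩ := hA a ha'
      rw [Finset.mem_coe, Finset.mem_product, Finset.mem_product]
      refine ⟨?_, ?_, ?_⟩
      · rw [Nat.mem_divisors]
        refine ⟨?_, hnn⟩
        rw [← Int.natCast_dvd]
        exact (dvd_pow_self _ two_ne_zero).trans e4
      · rw [Nat.mem_divisors]
        refine ⟨?_, hnn⟩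
        rw [← Int.natCast_dvd]
        exact (Int.gcd_dvd_left _ _).trans (Int.ediv_dvd_of_dvd e4)
      · rw [Finset.mem_range, Nat.lt_succ_iff]
        show Nat.log 2 ((pr a).1 + (pr a).2) ≤ Nat.log 2 (2 * B)
        refine Nat.log_mono_right ?_
        have f1 : (pr a).1 ≤ B := by
          calc (pr a).1 ≤ Nat.gcd a.1 a.2 * (pr a).1 := Nat.le_mul_of_pos_left _ e5
            _ = a.1 := e1.symm
            _ ≤ B := h3
        have f2 : (pr a).2 ≤ B := by
          calc (pr a).2 ≤ Nat.gcd a.1 a.2 * (pr a).2 := Nat.le_mul_of_pos_left _ e5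
            _ = a.2 := e2.symm
            _ ≤ B := h4
        omega
    · intro a ha a' ha' haa
      have hA1 : a ∈ A := ha
      have hA2 : a' ∈ A := ha'
      simp only [Prod.mk.injEq] at haa
      obtain ⟨hg, hm, hl⟩ := haa
      obtain ⟨e1, e2, e3, e4, e5⟩ := hpr a hA1
      obtain ⟨e1', e2', e3', _, _⟩ := hpr a' hA2
      rw [← hg] at hm e1' e2' e3'
      have hb := hbase (Nat.gcd a.1 a.2) ⟨_, e3⟩
      obtain ⟨c1, c2, c3, c4⟩ := e3
      obtain ⟨c1', c2', c3', c4'⟩ := e3'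
      obtain ⟨b1, _, _, b4⟩ := hb
      have hn1 : n / ((Nat.gcd a.1 a.2 : ℕ) : ℤ) ^ 2 ≠ 0 := by
        intro h0
        have := Int.ediv_mul_cancel e4
        rw [h0, zero_mul] at this
        exact hn this.symm
      have hdv := class_dvd v _ _ _ _ _ _ _ hv hn1 c4 c4' b4
        (Nat.isCoprime_iff_coprime.mpr c1) (Nat.isCoprime_iff_coprime.mpr c1')
        (Nat.isCoprime_iff_coprime.mpr b1) hm
      have h1 := hcore _ _ _ _ _ hn1 (by exact_mod_cast c2) (by exact_mod_cast c3)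
        (by exact_mod_cast c2') (by exact_mod_cast c3') c4 c4' hdv
      have heq : (pr a).1 * (pr a').2 = (pr a').1 * (pr a).2 := by
        rcases h1 with h1 | h1 | h1
        · exact_mod_cast h1
        · exfalso
          have h2 : 2 * ((pr a).1 + (pr a).2) ≤ (pr a').1 + (pr a').2 := by exact_mod_cast h1
          have h3 := Nat.log_mono_right (b := 2) h2
          rw [mul_comm, Nat.log_mul_base (by norm_num) (by omega)] at h3
          omega
        · exfalso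
          have h2 : 2 * ((pr a').1 + (pr a').2) ≤ (pr a).1 + (pr a).2 := by exact_mod_cast h1
          have h3 := Nat.log_mono_right (b := 2) h2
          rw [mul_comm, Nat.log_mul_base (by norm_num) (by omega)] at h3
          omega
      have d1 : (pr a).1 ∣ (pr a').1 := c1.dvd_of_dvd_mul_right ⟨_, heq.symm⟩
      have d2 : (pr a').1 ∣ (pr a).1 := c1'.dvd_of_dvd_mul_right ⟨_, heq⟩
      have d3 : (pr a).1 = (pr a').1 := Nat.dvd_antisymm d1 d2
      rw [d3] at heq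
      have d4 : (pr a').2 = (pr a).2 := Nat.eq_of_mul_eq_mul_left (by omega) heq
      refine Prod.ext ?_ ?_
      · rw [e1, e1', d3]
      · rw [e2, e2', d4]
  rw [Finset.card_product, Finset.card_product, Finset.card_range] at hcard
  calc A.card ≤ _ := hcard
    _ = _ := by ring

/-- Pell type equations -/
theorem count_pell (v : ℕ) (n : ℤ) (hv : Squarefree v) (hn : n ≠ 0) (B : ℕ)
    (A : Finset (ℕ × ℕ)) (hA : ∀ a ∈ A, 1 ≤ a.1 ∧ 1 ≤ a.2 ∧ a.1 ≤ B ∧ a.2 ≤ B ∧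
      (a.1 : ℤ) ^ 2 - v * (a.2 : ℤ) ^ 2 = n) :
    A.card ≤ n.natAbs.divisors.card ^ 2 * (Nat.log 2 (2 * B) + 1) := by
  refine count_gen v n (Int.squarefree_natCast.mpr hv) hn B A hA ?_
  intro n' x z x' z' hn' h1 h2 h3 h4 h5 h6 h7
  have hv1 : 1 ≤ v := Nat.one_le_iff_ne_zero.mpr hv.ne_zero
  exact growth v n' x z x' z' (by exact_mod_cast hv1) hn' h1 h2 h3 h4 h5 h6 h7

/-- sums of two squares -/
theorem count_squares (n : ℤ) (hn : n ≠ 0) (B : ℕ)
    (A : Finset (ℕ × ℕ)) (hA : ∀ a ∈ A, 1 ≤ a.1 ∧ 1 ≤ a.2 ∧ a.1 ≤ B ∧ a.2 ≤ B ∧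
      (a.1 : ℤ) ^ 2 + (a.2 : ℤ) ^ 2 = n) :
    A.card ≤ n.natAbs.divisors.card ^ 2 * (Nat.log 2 (2 * B) + 1) := by
  refine count_gen (-1) n ?_ hn B A (fun a ha => ?_) ?_
  · exact (isUnit_neg_one).squarefree
  · obtain ⟨h1, h2, h3, h4, h5⟩ := hA a ha
    exact ⟨h1, h2, h3, h4, by rw [← h5]; ring⟩
  · intro n' x z x' z' hn' h1 h2 h3 h4 h5 h6 h7
    left
    exact growth_neg n' x z x' z' h1 h2 h3 h4 (by rw [← h5]; ring) (by rw [← h6]; ring) h7

end Pool.Agent.H32.B4
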