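import Mathlib

/-!
# The least number whose fourth power is a multiple of `n`
-/

set_option autoImplicit false

open Finset

namespace Pool.Agent.H32.B4

/-- the exponents `⌈k / 4⌉` -/
noncomputable def rf (n : ℕ) : ℕ →₀ ℕ := n.factorization.mapRange (fun k => (k + 3) / 4) (by norm_num)

/-- the least number whose fourth power is a multiple of `n` -/
noncomputable def rh (n : ℕ) : ℕ := (rf n).prod fun p k => p ^ k

theorem rf_apply (n p : ℕ) : rf n p = (n.factorization p + 3) / 4 := by
  unfold rf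
  rw [Finsupp.mapRange_apply]

theorem rf_prime (n p : ℕ) (hp : p ∈ (rf n).support) : p.Prime := by
  rw [Finsupp.mem_support_iff, rf_apply] at hp
  by_contra h
  rw [Nat.factorization_eq_zero_of_not_prime _ h] at hp
  exact hp (by norm_num)

theorem rh_fac (n p : ℕ) : (rh n).factorization p = (n.factorization p + 3) / 4 := by
  unfold rh
  rw [Nat.prod_pow_factorization_eq_self (rf_prime n), rf_apply]

theorem rh_ne_zero (n : ℕ) : rh n ≠ 0 := by
  unfold rh
  rw [Finsupp.prod, Finset.prod_ne_zero_iff]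
  intro p hp
  exact pow_ne_zero _ (rf_prime n p hp).ne_zero

theorem dvd_rh (n : ℕ) (hn : n ≠ 0) : n ∣ rh n ^ 4 := by
  rw [← Nat.factorization_le_iff_dvd hn (pow_ne_zero _ (rh_ne_zero n))]
  intro p
  rw [Nat.factorization_pow, Finsupp.smul_apply, rh_fac, smul_eq_mul]
  omega

theorem fac_eq {p n k m : ℕ} (hp : p.Prime) (hn : n = p ^ k * m) (hm : ¬ p ∣ m) :
    n.factorization p = k := by
  have hm0 : m ≠ 0 := by
    rintro rfl
    exact hm (dvd_zero p)
  rw [hn, Nat.factorization_mul (pow_ne_zero _ hp.ne_zero) hm0, hp.factorization_pow]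
  simp [Nat.factorization_eq_zero_of_not_dvd hm]

/-- the factorization of the equation -/
theorem fac_sum (s t u c p : ℕ) (hs : 1 ≤ s) (ht : 1 ≤ t) (hu : 1 ≤ u) (hc : 1 ≤ c)
    (h : s * t * u = 48 * c ^ 4) :
    s.factorization p + t.factorization p + u.factorization p =
      (48 : ℕ).factorization p + 4 * c.factorization p := by
  have h1 : (s * t * u).factorization p = (48 * c ^ 4).factorization p := by rw [h]
  rw [Nat.factorization_mul (by positivity) (by omega), Nat.factorization_mul (by omega) (by omega),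
    Nat.factorization_mul (by norm_num) (by positivity), Nat.factorization_pow] at h1
  simpa using h1

theorem fac48 (p : ℕ) (hp2 : p ≠ 2) (hp3 : p ≠ 3) : (48 : ℕ).factorization p = 0 := by
  by_cases hp : p.Prime
  · refine Nat.factorization_eq_zero_of_not_dvd fun hd => ?_
    have h1 : p ∣ 2 ^ 4 * 3 := by simpa using hd
    rcases (Nat.Prime.dvd_mul hp).mp h1 with h2 | h2
    · exact hp2 ((Nat.prime_dvd_prime_iff_eq hp Nat.prime_two).mp (hp.dvd_of_dvd_pow h2))
    · exact hp3 ((Nat.prime_dvd_prime_iff_eq hp Nat.prime_three).mp h2)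
  · exact Nat.factorization_eq_zero_of_not_prime _ hp

/-- a prime different from 5 does not divide all three factors -/
theorem not_all (s t u p : ℕ) (hp : p.Prime) (hp5 : p ≠ 5) (hu : s ^ 2 + t ^ 2 = u + 5) (h1 : p ∣ s)
    (h2 : p ∣ t) : ¬ p ∣ u := by
  intro h3
  have h4 : p ∣ u + 5 := by
    rw [← hu]
    exact Dvd.dvd.add (dvd_pow h1 two_ne_zero) (dvd_pow h2 two_ne_zero)
  have h5 : p ∣ 5 := (Nat.dvd_add_right h3).mp h4
  exact hp5 ((Nat.prime_dvd_prime_iff_eq hp Nat.prime_five).mp h5)

theorem not_all' (s t u p : ℕ) (hp : p.Prime) (hp5 : p ≠ 5) (hu : s ^ 2 + t ^ 2 = u + 5) (h1 : p ∣ s)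
    (h3 : p ∣ u) : ¬ p ∣ t := fun h2 => not_all s t u p hp hp5 hu h1 h2 h3

/-- the key divisibility -/
theorem rh_dvd (s t u c : ℕ) (hs : 1 ≤ s) (ht : 1 ≤ t) (hu1 : 1 ≤ u) (hc : 1 ≤ c)
    (hu : s ^ 2 + t ^ 2 = u + 5) (h : s * t * u = 48 * c ^ 4) :
    (rh s * rh t * rh u) ^ 2 ∣ 27000 * (s * t * u) := by
  have h1 := rh_ne_zero s
  have h2 := rh_ne_zero t
  have h3 := rh_ne_zero u
  rw [← Nat.factorization_le_iff_dvd (by positivity) (by positivity)]
  intro p
  rw [Nat.factorization_pow, Finsupp.smul_apply, Nat.factorization_mul (by positivity) h3,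
    Nat.factorization_mul h1 h2, Nat.factorization_mul (by norm_num) (by positivity),
    Nat.factorization_mul (by positivity) (by omega), Nat.factorization_mul (by omega) (by omega)]
  simp only [Finsupp.add_apply, rh_fac, smul_eq_mul]
  have hsum := fac_sum s t u c p hs ht hu1 hc h
  by_cases hp : p.Prime
  · by_cases hp2 : p = 2
    · subst hp2
      have e : (27000 : ℕ).factorization 2 = 3 := fac_eq Nat.prime_two (show 27000 = 2 ^ 3 * 3375 by norm_num) (by norm_num)
      rw [e]
      omega
    · by_cases hp3 : p = 3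
      · subst hp3
        have e : (27000 : ℕ).factorization 3 = 3 := fac_eq Nat.prime_three (show 27000 = 3 ^ 3 * 1000 by norm_num) (by norm_num)
        rw [e]
        omega
      · by_cases hp5 : p = 5
        · subst hp5
          have e : (27000 : ℕ).factorization 5 = 3 := fac_eq Nat.prime_five (show 27000 = 5 ^ 3 * 216 by norm_num) (by norm_num)
          rw [e]
          omega
        · rw [fac48 p hp2 hp3, zero_add] at hsum
          have hz : s.factorization p = 0 ∨ t.factorization p = 0 ∨ u.factorization p = 0 := by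
            by_cases g1 : p ∣ s
            · by_cases g2 : p ∣ t
              · exact Or.inr (Or.inr (Nat.factorization_eq_zero_of_not_dvd (not_all s t u p hp hp5 hu g1 g2)))
              · exact Or.inr (Or.inl (Nat.factorization_eq_zero_of_not_dvd g2))
            · exact Or.inl (Nat.factorization_eq_zero_of_not_dvd g1)
          omega
  · rw [Nat.factorization_eq_zero_of_not_prime _ hp, Nat.factorization_eq_zero_of_not_prime _ hp,
      Nat.factorization_eq_zero_of_not_prime _ hp, Nat.factorization_eq_zero_of_not_prime _ hp]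
    norm_num

/-- one of the three numbers is small -/
theorem one_small (X R s t u c : ℕ) (hX : 1 ≤ X) (hR : 233 * X ^ 2 < (R + 1) ^ 3) (hs : 1 ≤ s) (ht : 1 ≤ t)
    (hu1 : 1 ≤ u) (hc : 1 ≤ c) (hu : s ^ 2 + t ^ 2 = u + 5) (h : s * t * u = 48 * c ^ 4)
    (hcX : 24 * c ^ 4 ≤ X ^ 4) : rh s ≤ R ∨ rh t ≤ R ∨ rh u ≤ R := by
  by_contra hcon
  push Not at hcon
  obtain ⟨h1, h2, h3⟩ := hcon
  have h4 := Nat.le_of_dvd (by positivity) (rh_dvd s t u c hs ht hu1 hc hu h)
  rw [h] at h4
  have h5 : (R + 1) ^ 3 ≤ rh s * rh t * rh u := by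
    calc (R + 1) ^ 3 = (R + 1) * (R + 1) * (R + 1) := by ring
      _ ≤ _ := Nat.mul_le_mul (Nat.mul_le_mul h1 h2) h3
  have h6 : (233 * X ^ 2 + 1) ^ 2 ≤ (rh s * rh t * rh u) ^ 2 := Nat.pow_le_pow_left (by omega) 2
  have h7 : 0 < X ^ 4 := by positivity
  have h8 : (233 * X ^ 2 + 1) ^ 2 = 54289 * X ^ 4 + 466 * X ^ 2 + 1 := by ring
  omega

/-- the squarefree part of `u` -/
theorem sqfree_dvd (s t u c v z : ℕ) (hs : 1 ≤ s) (ht : 1 ≤ t) (hu1 : 1 ≤ u) (hc : 1 ≤ c)
    (hu : s ^ 2 + t ^ 2 = u + 5) (h : s * t * u = 48 * c ^ 4) (hv : Squarefree v) (hz : z ^ 2 * v = u) :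
    v ∣ 30 * s * ((5 - (s : ℤ) ^ 2).natAbs) := by
  have hn0 : (5 - (s : ℤ) ^ 2).natAbs ≠ 0 := by
    rw [Int.natAbs_ne_zero]
    intro h0
    have h1 : s ^ 2 = 5 := by
      have : (s : ℤ) ^ 2 = 5 := by linarith
      exact_mod_cast this
    have h2 : s < 3 := by nlinarith
    interval_cases s <;> omega
  have hv0 : v ≠ 0 := hv.ne_zero
  rw [← Nat.factorization_le_iff_dvd hv0 (by positivity)]
  intro p
  by_cases hp : p.Prime
  · by_cases hpv : p ∣ v
    · have h1 : v.factorization p ≤ 1 := hv.natFactorization_le_one p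
      refine h1.trans ?_
      have hpos : ∀ m, m ≠ 0 → p ∣ m → 1 ≤ m.factorization p := fun m hm hd =>
        hp.factorization_pos_of_dvd hm hd
      apply hpos _ (by positivity)
      by_cases h30 : p ∣ 30 * s
      · exact Dvd.dvd.mul_right h30 _
      · apply Dvd.dvd.mul_left
        have g1 : ¬ p ∣ s := fun hd => h30 (Dvd.dvd.mul_left hd 30)
        have g2 : p ≠ 2 := fun h2 => h30 (by rw [h2]; exact Dvd.dvd.mul_right (by norm_num) s)
        have g3 : p ≠ 3 := fun h2 => h30 (by rw [h2]; exact Dvd.dvd.mul_right (by norm_num) s)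
        have hsum := fac_sum s t u c p hs ht hu1 hc h
        rw [fac48 p g2 g3, zero_add, Nat.factorization_eq_zero_of_not_dvd g1, zero_add] at hsum
        have hz0 : z ≠ 0 := by
          rintro rfl
          rw [← hz] at hu1
          simp at hu1
        have hvp : v.factorization p = 1 := le_antisymm h1 (hp.factorization_pos_of_dvd hv0 hpv)
        have hfu : u.factorization p = 2 * z.factorization p + 1 := by
          rw [← hz, Nat.factorization_mul (pow_ne_zero _ hz0) hv0, Nat.factorization_pow]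
          simp [hvp]
        have hpt : p ∣ t := by
          by_contra hpt
          rw [Nat.factorization_eq_zero_of_not_dvd hpt] at hsum
          omega
        have hpu : p ∣ u := by
          rw [← hz]
          exact Dvd.dvd.mul_left hpv _
        rw [← Int.natCast_dvd]
        have e1 : (5 - (s : ℤ) ^ 2) = (t : ℤ) ^ 2 - (u : ℤ) := by
          have : (s : ℤ) ^ 2 + (t : ℤ) ^ 2 = u + 5 := by exact_mod_cast hu
          linarith
        rw [e1]
        exact dvd_sub (dvd_pow (by exact_mod_cast hpt) two_ne_zero) (by exact_mod_cast hpu)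
    · rw [Nat.factorization_eq_zero_of_not_dvd hpv]
      exact Nat.zero_le _
  · rw [Nat.factorization_eq_zero_of_not_prime _ hp]
    exact Nat.zero_le _

end Pool.Agent.H32.B4
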