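import Mathlib
import Pool.Agent.H32.B4.Pell
import Pool.Agent.H32.B4.Rad

/-!
# Counting the solutions of `s t u = 48 c^4`, `s^2 + t^2 = u + 5`
-/

set_option autoImplicit false

open Finset

namespace Pool.Agent.H32.B4

/-- solutions -/
def Sol (X s t u c : ℕ) : Prop :=
  1 ≤ s ∧ 1 ≤ t ∧ 1 ≤ u ∧ 1 ≤ c ∧ s ≤ 2 * X ∧ t ≤ 2 * X ∧ u + 5 ≤ 8 * X ^ 2 ∧ s ^ 2 + t ^ 2 = u + 5 ∧
    s * t * u = 48 * c ^ 4 ∧ 24 * c ^ 4 ≤ X ^ 4

theorem Sol.symm {X s t u c : ℕ} (h : Sol X s t u c) : Sol X t s u c := by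
  obtain ⟨h1, h2, h3, h4, h5, h6, h7, h8, h9, h10⟩ := h
  exact ⟨h2, h1, h3, h4, h6, h5, h7, by rw [← h8, add_comm], by rw [← h9, mul_comm t s], h10⟩

/-- the numbers which divide the fourth power of a small number -/
def small (R : ℕ) : Finset ℕ := (Icc 1 R).biUnion fun m => (m ^ 4).divisors

theorem mem_small {R n : ℕ} (hn : n ≠ 0) (h : rh n ≤ R) : n ∈ small R := by
  unfold small
  rw [mem_biUnion]
  refine ⟨rh n, ?_, ?_⟩
  · rw [mem_Icc]
    exact ⟨Nat.one_le_iff_ne_zero.mpr (rh_ne_zero n), h⟩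
  · rw [Nat.mem_divisors]
    exact ⟨dvd_rh n hn, pow_ne_zero _ (rh_ne_zero n)⟩

theorem card_small (R D M : ℕ) (hD : ∀ n, 1 ≤ n → n ≤ M → n.divisors.card ≤ D) (hM : R ^ 4 ≤ M) :
    (small R).card ≤ R * D := by
  unfold small
  refine card_biUnion_le.trans ?_
  calc ∑ m ∈ Icc 1 R, (m ^ 4).divisors.card ≤ ∑ _m ∈ Icc 1 R, D := by
        apply sum_le_sum
        intro m hm
        rw [mem_Icc] at hm
        apply hD
        · exact Nat.one_le_pow _ _ hm.1
        · exact (Nat.pow_le_pow_left hm.2 4).trans hM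
    _ = R * D := by rw [sum_const, Nat.card_Icc, smul_eq_mul, Nat.add_sub_cancel]

theorem natAbs_le (X s : ℕ) (hX : 1 ≤ X) (hs : 1 ≤ s) (hsX : s ≤ 2 * X) :
    1 ≤ (5 - (s : ℤ) ^ 2).natAbs ∧ (5 - (s : ℤ) ^ 2).natAbs ≤ 4 * X ^ 2 ∧ (5 - (s : ℤ) ^ 2) ≠ 0 := by
  have h0 : (5 - (s : ℤ) ^ 2) ≠ 0 := by
    intro h0
    have h1 : s ^ 2 = 5 := by
      have : (s : ℤ) ^ 2 = 5 := by linarith
      exact_mod_cast this
    have h2 : s < 3 := by nlinarith
    interval_cases s <;> omega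
  refine ⟨Nat.one_le_iff_ne_zero.mpr (Int.natAbs_ne_zero.mpr h0), ?_, h0⟩
  have h3 : (s : ℤ) ≤ 2 * X := by exact_mod_cast hsX
  have h4 : (1 : ℤ) ≤ s := by exact_mod_cast hs
  have h5 : (1 : ℤ) ≤ X := by exact_mod_cast hX
  have h6 : |5 - (s : ℤ) ^ 2| ≤ 4 * (X : ℤ) ^ 2 := by
    rw [abs_le]
    constructor <;> nlinarith
  have h7 : ((5 - (s : ℤ) ^ 2).natAbs : ℤ) ≤ ((4 * X ^ 2 : ℕ) : ℤ) := by
    rw [Int.natCast_natAbs]
    push_cast
    exact h6
  exact_mod_cast h7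

/-- the number of `t` for a given `s` -/
theorem fib (X D s : ℕ) (hX : 1 ≤ X) (hD : ∀ n, 1 ≤ n → n ≤ 2401 * X ^ 3 → n.divisors.card ≤ D)
    (hs : 1 ≤ s) (hsX : s ≤ 2 * X) (F : Finset ℕ) (hF : ∀ t ∈ F, ∃ u c, Sol X s t u c) :
    F.card ≤ D ^ 3 * (Nat.log 2 (6 * X) + 1) := by
  classical
  obtain ⟨hn1, hn2, hn3⟩ := natAbs_le X s hX hs hsX
  set n : ℤ := 5 - (s : ℤ) ^ 2 with hn
  set N := 30 * s * n.natAbs with hN
  have hX3 : X ^ 2 ≤ X ^ 3 := Nat.pow_le_pow_right hX (by norm_num)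
  have hN1 : 1 ≤ N := Nat.mul_pos (by omega) hn1
  have hN2 : N ≤ 2401 * X ^ 3 := by
    calc N ≤ 30 * (2 * X) * (4 * X ^ 2) := Nat.mul_le_mul (Nat.mul_le_mul le_rfl hsX) hn2
      _ = 240 * X ^ 3 := by ring
      _ ≤ _ := by omega
  let A : ℕ → Finset (ℕ × ℕ) := fun v => (Icc 1 (3 * X) ×ˢ Icc 1 (3 * X)).filter fun a =>
    Squarefree v ∧ (a.1 : ℤ) ^ 2 - v * (a.2 : ℤ) ^ 2 = n
  have hA : ∀ v, (A v).card ≤ D ^ 2 * (Nat.log 2 (6 * X) + 1) := by
    intro v
    by_cases hv : Squarefree v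
    · have h1 := count_pell v n hv hn3 (3 * X) (A v) (by
        intro a ha
        rw [mem_filter, mem_product, mem_Icc, mem_Icc] at ha
        exact ⟨ha.1.1.1, ha.1.2.1, ha.1.1.2, ha.1.2.2, ha.2.2⟩)
      refine h1.trans ?_
      have h2 : n.natAbs.divisors.card ≤ D := hD _ hn1 (by omega)
      have e1 : 2 * (3 * X) = 6 * X := by ring
      rw [e1]
      exact Nat.mul_le_mul_right _ (Nat.pow_le_pow_left h2 2)
    · have : A v = ∅ := by
        apply filter_false_of_mem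
        intro a _ h
        exact hv h.1
      rw [this, card_empty]
      exact Nat.zero_le _
  have hsub : F ⊆ N.divisors.biUnion fun v => (A v).image Prod.fst := by
    intro t ht
    obtain ⟨u, c, h1, h2, h3, h4, h5, h6, h7, h8, h9, h10⟩ := hF t ht
    obtain ⟨v, z, hvz, hv⟩ := Nat.sq_mul_squarefree u
    rw [mem_biUnion]
    refine ⟨v, ?_, ?_⟩
    · rw [Nat.mem_divisors]
      exact ⟨sqfree_dvd s t u c v z h1 h2 h3 h4 h8 h9 hv hvz, by omega⟩
    · rw [mem_image]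
      have hz0 : 1 ≤ z := by
        rcases Nat.eq_zero_or_pos z with h0 | h0
        · subst h0
          rw [← hvz] at h3
          simp at h3
        · exact h0
      have hv0 : 1 ≤ v := Nat.one_le_iff_ne_zero.mpr hv.ne_zero
      have hzX : z ≤ 3 * X := by
        by_contra hcon
        push Not at hcon
        have g1 : (3 * X) ^ 2 < z ^ 2 := Nat.pow_lt_pow_left hcon two_ne_zero
        have g2 : z ^ 2 ≤ u := by
          rw [← hvz]
          exact Nat.le_mul_of_pos_right _ hv0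
        have g3 : (3 * X) ^ 2 = 9 * X ^ 2 := by ring
        omega
      refine ⟨(t, z), ?_, rfl⟩
      rw [mem_filter, mem_product, mem_Icc, mem_Icc]
      refine ⟨⟨⟨h2, by show t ≤ 3 * X; omega⟩, hz0, hzX⟩, hv, ?_⟩
      have g1 : (s : ℤ) ^ 2 + (t : ℤ) ^ 2 = u + 5 := by exact_mod_cast h8
      have g2 : (z : ℤ) ^ 2 * v = u := by exact_mod_cast hvz
      show (t : ℤ) ^ 2 - v * (z : ℤ) ^ 2 = n
      rw [hn]
      linarith
  calc F.card ≤ _ := card_le_card hsub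
    _ ≤ ∑ v ∈ N.divisors, ((A v).image Prod.fst).card := card_biUnion_le
    _ ≤ ∑ _v ∈ N.divisors, D ^ 2 * (Nat.log 2 (6 * X) + 1) := by
        apply sum_le_sum
        intro v _
        exact card_image_le.trans (hA v)
    _ = N.divisors.card * (D ^ 2 * (Nat.log 2 (6 * X) + 1)) := by rw [sum_const, smul_eq_mul]
    _ ≤ D * (D ^ 2 * (Nat.log 2 (6 * X) + 1)) := Nat.mul_le_mul_right _ (hD _ hN1 hN2)
    _ = _ := by ring

/-- the number of pairs for a given `u` -/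
theorem fibu (X D u : ℕ) (hX : 1 ≤ X) (hD : ∀ n, 1 ≤ n → n ≤ 2401 * X ^ 3 → n.divisors.card ≤ D)
    (F : Finset (ℕ × ℕ)) (hF : ∀ a ∈ F, ∃ c, Sol X a.1 a.2 u c) :
    F.card ≤ D ^ 2 * (Nat.log 2 (6 * X) + 1) := by
  rcases F.eq_empty_or_nonempty with h0 | ⟨a0, ha0⟩
  · rw [h0, card_empty]
    exact Nat.zero_le _
  · obtain ⟨c0, -, -, -, -, -, -, h7, -, -, -⟩ := hF a0 ha0
    have h1 := count_squares ((u + 5 : ℕ) : ℤ) (by positivity) (3 * X) F (by
      intro a ha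
      obtain ⟨c, h1, h2, h3, h4, h5, h6, h7, h8, h9, h10⟩ := hF a ha
      exact ⟨h1, h2, by omega, by omega, by exact_mod_cast h8⟩)
    rw [Int.natAbs_natCast] at h1
    refine h1.trans ?_
    have hX3 : X ^ 2 ≤ X ^ 3 := Nat.pow_le_pow_right hX (by norm_num)
    have h2 : (u + 5).divisors.card ≤ D := hD _ (by omega) (by omega)
    have e1 : 2 * (3 * X) = 6 * X := by ring
    rw [e1]
    exact Nat.mul_le_mul_right _ (Nat.pow_le_pow_left h2 2)

/-- the number of pairs -/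
theorem total (X R D : ℕ) (hX : 1 ≤ X) (hR : 233 * X ^ 2 < (R + 1) ^ 3) (hR2 : R ^ 4 ≤ 2401 * X ^ 3)
    (hD : ∀ n, 1 ≤ n → n ≤ 2401 * X ^ 3 → n.divisors.card ≤ D)
    (S : Finset (ℕ × ℕ)) (hS : ∀ a ∈ S, ∃ u c, Sol X a.1 a.2 u c) :
    S.card ≤ 3 * R * D ^ 4 * (Nat.log 2 (6 * X) + 1) := by
  classical
  set L := Nat.log 2 (6 * X) + 1 with hL
  have hD1 : 1 ≤ D := by
    have h1 : 0 < X ^ 3 := by positivity
    have h2 := hD 1 le_rfl (by omega)
    rw [Nat.divisors_one, card_singleton] at h2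
    exact h2
  have hcs := card_small R D _ hD hR2
  -- the three parts
  let S1 : ℕ → Finset (ℕ × ℕ) := fun n => S.filter fun a => a.1 = n
  let S2 : ℕ → Finset (ℕ × ℕ) := fun n => S.filter fun a => a.2 = n
  let S3 : ℕ → Finset (ℕ × ℕ) := fun n => S.filter fun a => ∃ c, Sol X a.1 a.2 n c
  have hc1 : ∀ n, (S1 n).card ≤ D ^ 3 * L := by
    intro n
    by_cases hne : (S1 n).Nonempty
    · obtain ⟨a0, ha0⟩ := hne
      rw [mem_filter] at ha0
      obtain ⟨u0, c0, h0⟩ := hS a0 ha0.1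
      have e1 : (S1 n).card = ((S1 n).image Prod.snd).card := by
        rw [card_image_of_injOn]
        intro a ha b hb hab
        have ha' := (mem_filter.mp ha).2
        have hb' := (mem_filter.mp hb).2
        exact Prod.ext (ha'.trans hb'.symm) hab
      rw [e1]
      refine fib X D n hX hD (by rw [← ha0.2]; exact h0.1) (by rw [← ha0.2]; exact h0.2.2.2.2.1) _ ?_
      intro t ht
      rw [mem_image] at ht
      obtain ⟨a, ha, rfl⟩ := ht
      rw [mem_filter] at ha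
      obtain ⟨u, c, h⟩ := hS a ha.1
      rw [ha.2] at h
      exact ⟨u, c, h⟩
    · rw [not_nonempty_iff_eq_empty] at hne
      rw [hne, card_empty]
      exact Nat.zero_le _
  have hc2 : ∀ n, (S2 n).card ≤ D ^ 3 * L := by
    intro n
    by_cases hne : (S2 n).Nonempty
    · obtain ⟨a0, ha0⟩ := hne
      rw [mem_filter] at ha0
      obtain ⟨u0, c0, h0⟩ := hS a0 ha0.1
      have e1 : (S2 n).card = ((S2 n).image Prod.fst).card := by
        rw [card_image_of_injOn]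
        intro a ha b hb hab
        have ha' := (mem_filter.mp ha).2
        have hb' := (mem_filter.mp hb).2
        exact Prod.ext hab (ha'.trans hb'.symm)
      rw [e1]
      refine fib X D n hX hD (by rw [← ha0.2]; exact h0.2.1) (by rw [← ha0.2]; exact h0.2.2.2.2.2.1) _ ?_
      intro t ht
      rw [mem_image] at ht
      obtain ⟨a, ha, rfl⟩ := ht
      rw [mem_filter] at ha
      obtain ⟨u, c, h⟩ := hS a ha.1
      rw [ha.2] at h
      exact ⟨u, c, h.symm⟩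
    · rw [not_nonempty_iff_eq_empty] at hne
      rw [hne, card_empty]
      exact Nat.zero_le _
  have hc3 : ∀ n, (S3 n).card ≤ D ^ 2 * L := fun n => fibu X D n hX hD (S3 n) fun a ha => (mem_filter.mp ha).2
  have hsub : S ⊆ ((small R).biUnion S1 ∪ (small R).biUnion S2) ∪ (small R).biUnion S3 := by
    intro a ha
    obtain ⟨u, c, h⟩ := hS a ha
    obtain ⟨h1, h2, h3, h4, h5, h6, h7, h8, h9, h10⟩ := id h
    rw [mem_union, mem_union, mem_biUnion, mem_biUnion, mem_biUnion]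
    rcases one_small X R a.1 a.2 u c hX hR h1 h2 h3 h4 h8 h9 h10 with hh | hh | hh
    · left; left
      exact ⟨a.1, mem_small (by omega) hh, mem_filter.mpr ⟨ha, rfl⟩⟩
    · left; right
      exact ⟨a.2, mem_small (by omega) hh, mem_filter.mpr ⟨ha, rfl⟩⟩
    · right
      exact ⟨u, mem_small (by omega) hh, mem_filter.mpr ⟨ha, c, h⟩⟩
  have hbi : ∀ (T : ℕ → Finset (ℕ × ℕ)) (K : ℕ), (∀ n, (T n).card ≤ K) → ((small R).biUnion T).card ≤ R * D * K := by
    intro T K hT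
    refine card_biUnion_le.trans ((sum_le_card_nsmul _ _ K fun n _ => hT n).trans ?_)
    rw [smul_eq_mul]
    exact Nat.mul_le_mul_right _ hcs
  have t1 := hbi S1 _ hc1
  have t2 := hbi S2 _ hc2
  have t3 := hbi S3 _ hc3
  have t4 : R * D * (D ^ 2 * L) ≤ R * D * (D ^ 3 * L) := by
    apply Nat.mul_le_mul_left
    apply Nat.mul_le_mul_right
    exact Nat.pow_le_pow_right hD1 (by norm_num)
  have t5 : 3 * R * D ^ 4 * L = R * D * (D ^ 3 * L) + R * D * (D ^ 3 * L) + R * D * (D ^ 3 * L) := by ring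
  rw [t5]
  calc S.card ≤ _ := card_le_card hsub
    _ ≤ _ := card_union_le _ _
    _ ≤ (((small R).biUnion S1).card + ((small R).biUnion S2).card) + ((small R).biUnion S3).card :=
        Nat.add_le_add_right (card_union_le _ _) _
    _ ≤ _ := by omega

end Pool.Agent.H32.B4
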